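import Pool.Agent.U115.GD.Stm
import Pool.Agent.Y302.CQ.LowA
import Pool.Agent.Y405.CQ.MER
import Pool.Agent.TH423.SH.PAIP

/-!
# Project GD of helper115: the parts MER, CHE and LOW (helper2)

Mertens' theorem modulo `q`, many primes in the classes modulo `q`, and the lower bound for the size
of the class (after helper302's and helper413's files for the projects CQ and SQ).
-/

set_option autoImplicit false

open scoped Classical

namespace Pool.Agent.U2.GD

open Finset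
open Pool.Agent.U115.GD
open Pool.Agent.Y302.CQ (P2 M1 G1_lower)

theorem t_MER : S_MER := by
  intro q a hq ha
  have ha' : (a % q).Coprime q := by
    rw [Nat.coprime_iff_gcd_eq_one, ← Nat.gcd_rec, Nat.gcd_comm]
    exact ha
  obtain ⟨C, -, hC⟩ := Pool.Agent.Y405.CQ.mertens_ap q hq (a % q) (Nat.mod_lt _ hq) ha'
  refine ⟨C, fun y hy => ?_⟩
  have h1 := hC y hy
  have h3 : (range (y + 1)).filter (fun p => p.Prime ∧ p % q = a % q) =
      (Icc 1 y).filter (fun p => p.Prime ∧ p % q = a % q) := by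
    ext p
    rw [mem_filter, mem_filter, mem_range, mem_Icc]
    constructor
    · rintro ⟨g1, g2, g3⟩
      exact ⟨⟨g2.one_lt.le, by omega⟩, g2, g3⟩
    · rintro ⟨⟨g0, g1⟩, g2, g3⟩
      exact ⟨by omega, g2, g3⟩
  rw [h3]
  convert h1 using 6

theorem t_CHE : S_CHE := by
  intro q hq
  have hφ : 0 < Nat.totient q := Nat.totient_pos.2 hq
  have hφR : (0 : ℝ) < (Nat.totient q : ℝ) := by exact_mod_cast hφ
  obtain ⟨x₀, hx₀⟩ := Pool.Agent.TH423.SH.pai q hq (1 / 2) (1 / 4) (by norm_num)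
    (by norm_num)
  refine ⟨1 / (8 * Nat.totient q), max 4 ⌈x₀⌉₊, by positivity, ?_⟩
  intro Y hY a hco
  have hY4 : 4 ≤ Y := le_trans (le_max_left _ _) hY
  have hYx : x₀ ≤ (Y : ℝ) := (Nat.le_ceil x₀).trans (by exact_mod_cast (le_max_right _ _).trans hY)
  have hY4' : (4 : ℝ) ≤ Y := by exact_mod_cast hY4
  have hdiv1 : ((Y / 2 : ℕ) : ℝ) ≤ (Y : ℝ) / 2 := Nat.cast_div_le
  have hdiv2 : (Y : ℝ) / 2 ≤ ((Y / 2 + 1 : ℕ) : ℝ) := by
    have : Y < 2 * (Y / 2 + 1) := by omega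
    have : (Y : ℝ) < 2 * ((Y / 2 + 1 : ℕ) : ℝ) := by exact_mod_cast this
    linarith
  have hlog : 0 < Real.log Y := Real.log_pos (by linarith)
  have h := hx₀ Y hYx (Y / 2 + 1) Y a hdiv2 (by linarith)
    (by push_cast; linarith) hco
  have h1 := (abs_le.mp h).1
  have hsub : (Ioc (Y / 2 + 1) Y).filter (fun p => p.Prime ∧ p % q = a % q) ⊆
      (range (Y + 1)).filter fun p => p.Prime ∧ p % q = a % q := by
    intro p hp
    rw [mem_filter, mem_Ioc] at hp
    rw [mem_filter, mem_range]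
    exact ⟨by omega, hp.2⟩
  have hcard : (((Ioc (Y / 2 + 1) Y).filter (fun p => p.Prime ∧ p % q = a % q)).card : ℝ) ≤
      (((range (Y + 1)).filter fun p => p.Prime ∧ p % q = a % q).card : ℝ) := by
    exact_mod_cast Finset.card_le_card hsub
  refine le_trans ?_ hcard
  have h2 : (1 / 2 : ℝ) * (((Y : ℝ) - ((Y / 2 + 1 : ℕ) : ℝ)) / (Nat.totient q * Real.log Y)) ≤
      (((Ioc (Y / 2 + 1) Y).filter (fun p => p.Prime ∧ p % q = a % q)).card : ℝ) := by
    have h5 : ∀ N A : ℝ, -(1 / 2 * A) ≤ N - A → 1 / 2 * A ≤ N := fun N A hN => by linarith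
    convert h5 _ _ h1 using 4
  refine le_trans ?_ h2
  have h3 : (Y : ℝ) / 4 ≤ (Y : ℝ) - ((Y / 2 + 1 : ℕ) : ℝ) := by push_cast; linarith
  have h4 : (Y : ℝ) / 4 / (Nat.totient q * Real.log Y) ≤
      ((Y : ℝ) - ((Y / 2 + 1 : ℕ) : ℝ)) / (Nat.totient q * Real.log Y) := by
    apply div_le_div_of_nonneg_right h3
    positivity
  calc 1 / (8 * (Nat.totient q : ℝ)) * Y / Real.log Y =
        1 / 2 * ((Y : ℝ) / 4 / (Nat.totient q * Real.log Y)) := by
        field_simp; ring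
    _ ≤ _ := by linarith

/-- the class without the primes in `F` -/
def cls (G : Cfg) (F : Finset ℕ) (p : ℕ) : Prop := (Sp G p ∨ In G p) ∧ p ∉ F

/-- the residues outside the class -/
noncomputable def Res (G : Cfg) : Finset ℕ :=
  (range G.Q).filter fun a => Nat.Coprime a G.Q ∧ ¬ (Hc G a ∨ a ∈ G.B)

theorem card_Res {G : Cfg} (h : Ok G) :
    (AA G).card + G.B.card + (Res G).card = Nat.totient G.Q := by
  have h1 : Nat.totient G.Q = ((range G.Q).filter fun a => Nat.Coprime a G.Q).card := by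
    rw [Nat.totient_eq_card_coprime]
    congr 1
    ext a
    simp only [mem_filter, Nat.coprime_comm]
  have h2 := Finset.card_filter_add_card_filter_not
    (s := (range G.Q).filter fun a => Nat.Coprime a G.Q) (fun a => Hc G a ∨ a ∈ G.B)
  have h3 : ((range G.Q).filter fun a => Nat.Coprime a G.Q).filter
      (fun a => Hc G a ∨ a ∈ G.B) = AA G ∪ G.B := by
    ext a
    simp only [mem_filter, AA, mem_union, mem_range]
    constructor
    · rintro ⟨⟨a1, a2⟩, a3 | a3⟩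
      · exact Or.inl ⟨a1, a2, a3⟩
      · exact Or.inr a3
    · rintro (⟨a1, a2, a3⟩ | a3)
      · exact ⟨⟨a1, a2⟩, Or.inl a3⟩
      · exact ⟨⟨(h.hB a a3).1, (h.hB a a3).2.1⟩, Or.inr a3⟩
  have h4 : Disjoint (AA G) G.B := by
    rw [Finset.disjoint_left]
    intro a ha hb
    exact (h.hB a hb).2.2 (mem_filter.mp ha).2.2
  have h5 : ((range G.Q).filter fun a => Nat.Coprime a G.Q).filter
      (fun a => ¬ (Hc G a ∨ a ∈ G.B)) = Res G := by
    ext a
    simp only [mem_filter, Res, mem_range, and_assoc]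
  rw [h3, h5, Finset.card_union_of_disjoint h4, ← h1] at h2
  exact h2

theorem tot_pos {G : Cfg} (h : Ok G) : (0 : ℝ) < (Nat.totient G.Q : ℝ) := by
  exact_mod_cast Nat.totient_pos.2 h.q0

theorem card_Res' {G : Cfg} (h : Ok G) :
    ((Res G).card : ℝ) / (Nat.totient G.Q : ℝ) = 1 - dl G := by
  have h1 := card_Res h
  have h2 : ((AA G).card : ℝ) + (G.B.card : ℝ) + ((Res G).card : ℝ) = (Nat.totient G.Q : ℝ) := by
    exact_mod_cast h1
  have h3 := tot_pos h
  unfold dl da db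
  field_simp
  linarith

theorem dl_nonneg (G : Cfg) : 0 ≤ dl G := by
  unfold dl da db
  positivity

theorem dl_le {G : Cfg} (h : Ok G) : dl G ≤ 1 := by
  have h1 := card_Res' h
  have : 0 ≤ ((Res G).card : ℝ) / (Nat.totient G.Q : ℝ) := by positivity
  linarith

/-- Mertens' theorem for the primes outside the class. -/
theorem mert (hM : S_MER) {G : Cfg} (h : Ok G) (F : Finset ℕ) : ∃ C : ℝ, ∀ y : ℕ, 3 ≤ y →
    ∑ p ∈ P2 (cls G F) y, (1 : ℝ) / p ≤ (1 - dl G) * Real.log (Real.log y) + C := by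
  have hM' : ∀ a : ℕ, ∃ C : ℝ, Nat.Coprime a G.Q → ∀ y : ℕ, 3 ≤ y →
      |∑ p ∈ (range (y + 1)).filter (fun p => p.Prime ∧ p % G.Q = a % G.Q), (1 : ℝ) / p -
        1 / (Nat.totient G.Q : ℝ) * Real.log (Real.log y)| ≤ C := by
    intro a
    by_cases ha : Nat.Coprime a G.Q
    · obtain ⟨C, hC⟩ := hM G.Q a h.q0 ha
      exact ⟨C, fun _ => hC⟩
    · exact ⟨0, fun h => absurd h ha⟩
  choose C hC using hM'
  obtain ⟨E, hE⟩ : ∃ E : Finset ℕ, E = G.Q.primeFactors ∪ F := ⟨_, rfl⟩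
  refine ⟨∑ p ∈ E, (1 : ℝ) / p + ∑ a ∈ Res G, C a, ?_⟩
  intro y hy
  have h1 := Finset.sum_filter_add_sum_filter_not (P2 (cls G F) y)
    (fun p => p ∈ E) (fun p => (1 : ℝ) / p)
  have h2 : ∑ p ∈ (P2 (cls G F) y).filter (fun p => p ∈ E), (1 : ℝ) / p ≤
      ∑ p ∈ E, (1 : ℝ) / p := by
    apply Finset.sum_le_sum_of_subset_of_nonneg
    · intro p hp
      exact (mem_filter.mp hp).2
    · intro p _ _
      positivity
  have hmaps : ∀ p ∈ (P2 (cls G F) y).filter (fun p => ¬ p ∈ E),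
      p % G.Q ∈ Res G := by
    intro p hp
    rw [mem_filter, P2, mem_filter] at hp
    obtain ⟨⟨_, hpp, hpc⟩, hp4⟩ := hp
    rw [hE, mem_union, not_or] at hp4
    obtain ⟨hpQ, hpF⟩ := hp4
    rw [Res, mem_filter, mem_range]
    refine ⟨Nat.mod_lt _ h.q0, ?_, ?_⟩
    · have h3 : Nat.Coprime p G.Q := by
        rw [Nat.Prime.coprime_iff_not_dvd hpp]
        intro h4
        exact hpQ (Nat.mem_primeFactors.2 ⟨hpp, h4, h.q0.ne'⟩)
      have h4 : Nat.gcd G.Q p = Nat.gcd (p % G.Q) G.Q := Nat.gcd_rec G.Q p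
      unfold Nat.Coprime at h3 ⊢
      rw [← h4, Nat.gcd_comm]
      exact h3
    · rintro (ha | ha)
      · rw [hc_mod h] at ha
        exact hpc ⟨Or.inl ⟨hpp, ha⟩, hpF⟩
      · exact hpc ⟨Or.inr ⟨hpp, ha⟩, hpF⟩
  have h3 : ∑ p ∈ (P2 (cls G F) y).filter (fun p => ¬ p ∈ E), (1 : ℝ) / p ≤
      ∑ a ∈ Res G, (1 / (Nat.totient G.Q : ℝ) * Real.log (Real.log y) + C a) := by
    rw [← Finset.sum_fiberwise_of_maps_to hmaps]
    apply Finset.sum_le_sum
    intro a ha
    have hco : Nat.Coprime a G.Q := by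
      rw [Res, mem_filter] at ha
      exact ha.2.1
    have haQ : a % G.Q = a := by
      rw [Res, mem_filter, mem_range] at ha
      exact Nat.mod_eq_of_lt ha.1
    have h4 := (abs_le.mp (hC a hco y hy)).2
    have h5 : ∑ p ∈ ((P2 (cls G F) y).filter (fun p => ¬ p ∈ E)).filter
        (fun p => p % G.Q = a), (1 : ℝ) / p ≤
        ∑ p ∈ (range (y + 1)).filter (fun p => p.Prime ∧ p % G.Q = a % G.Q), (1 : ℝ) / p := by
      apply Finset.sum_le_sum_of_subset_of_nonneg
      · intro p hp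
        rw [mem_filter, mem_filter, P2, mem_filter] at hp
        rw [mem_filter, haQ]
        exact ⟨hp.1.1.1, hp.1.1.2.1, hp.2⟩
      · intro p _ _
        positivity
    linarith
  rw [← h1]
  have h4 : ∑ a ∈ Res G, (1 / (Nat.totient G.Q : ℝ) * Real.log (Real.log y) + C a) =
      (1 - dl G) * Real.log (Real.log y) + ∑ a ∈ Res G, C a := by
    rw [Finset.sum_add_distrib, Finset.sum_const, nsmul_eq_mul, ← card_Res' h]
    ring
  rw [h4] at h3
  linarith

theorem mem_M1 {G : Cfg} {F : Finset ℕ} {y : ℕ} {S : Finset ℕ} (h : S ∈ M1 (cls G F) y) :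
    (∀ p ∈ S, p.Prime ∧ cls G F p ∧ p ≤ y) ∧ ∏ p ∈ S, p ≤ y := by
  rw [M1, mem_filter, mem_powerset] at h
  refine ⟨fun p hp => ?_, h.2⟩
  have := h.1 hp
  rw [mem_filter, mem_range] at this
  exact ⟨this.2.1, this.2.2, by omega⟩

/-- the sets of primes of the class outside `F` with product at most `X` -/
noncomputable def UU (G : Cfg) (F : Finset ℕ) (X : ℕ) : Finset (Finset ℕ) :=
  (range (X + 1)).powerset.filter fun S => (∀ p ∈ S, cls G F p) ∧ ∏ p ∈ S, p ≤ X

/-- the pairs -/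
noncomputable def DD (G : Cfg) (F : Finset ℕ) (X y : ℕ) : Finset (Σ _ : Finset ℕ, ℕ) :=
  (M1 (cls G F) y).sigma fun T => (range (X / (∏ p ∈ T, p) + 1)).filter
    fun r => y < r ∧ r.Prime ∧ r % G.Q = 1

theorem card_DD_le {G : Cfg} (h : Ok G) (F : Finset ℕ) (X y : ℕ) (hF : ∀ p ∈ F, p ≤ y) :
    (DD G F X y).card ≤ (UU G F X).card := by
  refine Finset.card_le_card_of_injOn (fun t => insert t.2 t.1) ?_ ?_
  · rintro ⟨T, r⟩ ht
    rw [mem_coe, DD, mem_sigma, mem_filter, mem_range] at ht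
    obtain ⟨hT, hr, hry, hrp, hrQ⟩ := ht
    obtain ⟨h1, h2⟩ := mem_M1 hT
    simp only at hr hry hrp hrQ
    have k6 : 0 < ∏ p ∈ T, p := Finset.prod_pos fun p hp => (h1 p hp).1.pos
    have hrT : r ∉ T := fun h => by have := (h1 r h).2.2; omega
    have hprod : r * ∏ p ∈ T, p ≤ X := by
      have : r ≤ X / ∏ p ∈ T, p := by omega
      exact (Nat.le_div_iff_mul_le k6).mp this
    have hcl : cls G F r := by
      refine ⟨Or.inl ⟨hrp, ?_⟩, fun hh => ?_⟩
      · rw [← hc_mod h, hrQ]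
        exact hc_one G
      · have := hF r hh
        omega
    have hprod' : ∏ p ∈ insert r T, p ≤ X := by
      rw [Finset.prod_insert hrT]
      exact hprod
    have hall : ∀ p ∈ insert r T, cls G F p := by
      intro p hp
      rcases mem_insert.mp hp with rfl | hp
      · exact hcl
      · exact (h1 p hp).2.1
    have hprime : ∀ p ∈ insert r T, p.Prime := fun p hp => pr_of (hall p hp).1
    rw [mem_coe, UU, mem_filter, mem_powerset]
    refine ⟨?_, hall, hprod'⟩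
    intro p hp
    rw [mem_range]
    have h3 : p ∣ ∏ q ∈ insert r T, q := Finset.dvd_prod_of_mem _ hp
    have h4 : 0 < ∏ q ∈ insert r T, q := Finset.prod_pos fun q hq => (hprime q hq).pos
    have := Nat.le_of_dvd h4 h3
    omega
  · rintro ⟨T, r⟩ ht ⟨T', r'⟩ ht' he
    rw [mem_coe, DD, mem_sigma, mem_filter, mem_range] at ht ht'
    obtain ⟨hT, hr, hry, hrp, hr56⟩ := ht
    obtain ⟨hT', hr', hry', hrp', hr56'⟩ := ht'
    obtain ⟨k1, k2⟩ := mem_M1 hT
    obtain ⟨k1', k2'⟩ := mem_M1 hT'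
    simp only at hr hry hrp hr56 hr' hry' hrp' hr56' he
    have hrr : r = r' := by
      have : r ∈ insert r' T' := by rw [← he]; exact mem_insert_self _ _
      rw [mem_insert] at this
      rcases this with h | h
      · exact h
      · have := (k1' r h).2.2
        omega
    subst hrr
    have hTT : T = T' := by
      have e1 : ∀ (S : Finset ℕ), (∀ p ∈ S, p ≤ y) →
          (insert r S).filter (fun p => p ≤ y) = S := by
        intro S hS
        ext p
        simp only [mem_filter, mem_insert]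
        constructor
        · rintro ⟨rfl | h, h3⟩
          · omega
          · exact h
        · intro h; exact ⟨Or.inr h, hS p h⟩
      rw [← e1 T fun p hp => (k1 p hp).2.2, he, e1 T' fun p hp => (k1' p hp).2.2]
    subst hTT
    rfl

theorem exists_root (X : ℕ) : ∃ y : ℕ, y ^ 8 ≤ X ∧ X < (y + 1) ^ 8 := by
  refine ⟨Nat.sqrt (Nat.sqrt (Nat.sqrt X)), ?_, ?_⟩
  · have h1 := Nat.sqrt_le' X
    have h2 := Nat.sqrt_le' (Nat.sqrt X)
    have h3 := Nat.sqrt_le' (Nat.sqrt (Nat.sqrt X))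
    calc (Nat.sqrt (Nat.sqrt (Nat.sqrt X))) ^ 8 =
        (((Nat.sqrt (Nat.sqrt (Nat.sqrt X))) ^ 2) ^ 2) ^ 2 := by ring
      _ ≤ ((Nat.sqrt (Nat.sqrt X)) ^ 2) ^ 2 :=
          Nat.pow_le_pow_left (Nat.pow_le_pow_left h3 2) 2
      _ ≤ (Nat.sqrt X) ^ 2 := Nat.pow_le_pow_left h2 2
      _ ≤ X := h1
  · have h1 := Nat.lt_succ_sqrt' X
    have h2 := Nat.lt_succ_sqrt' (Nat.sqrt X)
    have h3 := Nat.lt_succ_sqrt' (Nat.sqrt (Nat.sqrt X))
    calc X < (Nat.sqrt X + 1) ^ 2 := h1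
      _ ≤ ((Nat.sqrt (Nat.sqrt X) + 1) ^ 2) ^ 2 := Nat.pow_le_pow_left h2 2
      _ ≤ (((Nat.sqrt (Nat.sqrt (Nat.sqrt X)) + 1) ^ 2) ^ 2) ^ 2 :=
          Nat.pow_le_pow_left (Nat.pow_le_pow_left h3 2) 2
      _ = _ := by ring

theorem log_le_two_sqrt {x : ℝ} (hx : 0 < x) : Real.log x ≤ 2 * Real.sqrt x := by
  have h1 : 0 < Real.sqrt x := Real.sqrt_pos.mpr hx
  have h2 : Real.log x = 2 * Real.log (Real.sqrt x) := by
    rw [Real.log_sqrt hx.le]; ring
  rw [h2]
  have := Real.log_le_sub_one_of_pos h1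
  linarith

/-- the lower bound without the condition on the product -/
theorem low0 (hM : S_MER) (hche : S_CHE) {G : Cfg} (hok : Ok G) (F : Finset ℕ) :
    ∃ (c : ℝ) (X₀ : ℕ), 0 < c ∧ ∀ X : ℕ, X₀ ≤ X →
      c * X * (Real.log X) ^ (-1 + dl G : ℝ) ≤ ((UU G F X).card : ℝ) := by
  obtain ⟨C, hC⟩ := mert hM hok F
  obtain ⟨c, Y₀, hc, hche⟩ := hche G.Q hok.q0
  have hQ8 : 8 ≤ G.Q := Nat.le_of_dvd hok.q0 hok.q8
  obtain ⟨y₀, hy₀⟩ : ∃ y₀ : ℕ, y₀ = max (max (max 5 Y₀) ⌈8 / c⌉₊) (F.sup id) := ⟨_, rfl⟩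
  refine ⟨c / 20 * (1 / 2 * Real.exp (-C)) / 16, y₀ ^ 8, by positivity, ?_⟩
  intro X hX
  obtain ⟨y, hy1, hy2⟩ := exists_root X
  have hyy : y₀ ≤ y := by
    have : y₀ ^ 8 < (y + 1) ^ 8 := lt_of_le_of_lt hX hy2
    have := lt_of_pow_lt_pow_left₀ 8 (Nat.zero_le _) this
    omega
  have hy5 : 5 ≤ y := by
    have : 5 ≤ y₀ := by
      rw [hy₀]
      exact (le_max_left _ _).trans ((le_max_left _ _).trans (le_max_left _ _))
    omega
  have hyY : Y₀ ≤ y := by
    have : Y₀ ≤ y₀ := by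
      rw [hy₀]
      exact (le_max_right _ _).trans ((le_max_left _ _).trans (le_max_left _ _))
    omega
  have hyF : ∀ p ∈ F, p ≤ y := by
    intro p hp
    have h1 : p ≤ F.sup id := Finset.le_sup (f := id) hp
    have : F.sup id ≤ y₀ := by rw [hy₀]; exact le_max_right _ _
    omega
  have hyc : 8 / c ≤ (y : ℝ) := by
    have h1 : 8 / c ≤ (⌈8 / c⌉₊ : ℝ) := Nat.le_ceil _
    have h2 : ⌈8 / c⌉₊ ≤ y := by
      have : ⌈8 / c⌉₊ ≤ y₀ := by
        rw [hy₀]
        exact (le_max_right _ _).trans (le_max_left _ _)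
      omega
    exact h1.trans (by exact_mod_cast h2)
  have hyR : (5 : ℝ) ≤ y := by exact_mod_cast hy5
  have hyX : y < X := by
    have : y < y ^ 8 := by
      calc y = y ^ 1 := (pow_one y).symm
        _ < y ^ 8 := Nat.pow_lt_pow_right (by omega) (by norm_num)
    omega
  have hX1 : (1 : ℝ) < X := by exact_mod_cast (show 1 < X by omega)
  have hlogy : 0 < Real.log y := Real.log_pos (by linarith)
  have hlogX : 0 < Real.log X := Real.log_pos hX1
  have hlog16 : Real.log X ≤ 16 * Real.log y := by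
    have h1 : X ≤ y ^ 16 := by
      have h2 : y + 1 ≤ y ^ 2 := by nlinarith
      calc X ≤ (y + 1) ^ 8 := hy2.le
        _ ≤ (y ^ 2) ^ 8 := Nat.pow_le_pow_left h2 8
        _ = y ^ 16 := by ring
    have : Real.log X ≤ Real.log ((y : ℝ) ^ 16) := by
      apply Real.log_le_log (by linarith)
      exact_mod_cast h1
    rwa [Real.log_pow] at this
  -- the sum
  have hsum : ∑ T ∈ M1 (cls G F) y, c / 20 * (X / Real.log X) *
      ((1 : ℝ) / ((∏ p ∈ T, p : ℕ) : ℝ)) ≤ ((DD G F X y).card : ℝ) := by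
    rw [DD, Finset.card_sigma, Nat.cast_sum]
    refine Finset.sum_le_sum fun T hT => ?_
    obtain ⟨h1, h2⟩ := mem_M1 hT
    obtain ⟨m, hm⟩ : ∃ m, m = ∏ p ∈ T, p := ⟨_, rfl⟩
    have k6 : 0 < ∏ p ∈ T, p := Finset.prod_pos fun p hp => (h1 p hp).1.pos
    rw [← hm] at h2 k6
    rw [← hm]
    obtain ⟨Y, hYdef⟩ : ∃ Y, Y = X / m := ⟨_, rfl⟩
    have hYy : y ^ 6 ≤ Y := by
      rw [hYdef, Nat.le_div_iff_mul_le k6]
      calc y ^ 6 * m ≤ y ^ 6 * y ^ 2 := by
            apply Nat.mul_le_mul_left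
            nlinarith
        _ = y ^ 8 := by ring
        _ ≤ X := hy1
    have hy6 : y ≤ y ^ 6 := Nat.le_self_pow (by norm_num) y
    have hY0 : Y₀ ≤ Y := by omega
    have hYX : Y ≤ X := by rw [hYdef]; exact Nat.div_le_self _ _
    have hY1 : (1 : ℝ) < (Y : ℝ) := by exact_mod_cast (show 1 < Y by omega)
    have hlY : 0 < Real.log (Y : ℝ) := Real.log_pos hY1
    have hlYX : Real.log (Y : ℝ) ≤ Real.log X :=
      Real.log_le_log (by linarith) (by exact_mod_cast hYX)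
    have h3 := hche Y hY0 1 (Nat.coprime_one_left G.Q)
    have haa : 1 % G.Q = 1 := Nat.mod_eq_of_lt (by omega)
    rw [haa] at h3
    -- discard the small primes
    have h4 : ((range (Y + 1)).filter fun p => p.Prime ∧ p % G.Q = 1).card ≤
        ((range (Y + 1)).filter fun r => y < r ∧ r.Prime ∧ r % G.Q = 1).card + (y + 1) := by
      have h5 : ((range (Y + 1)).filter fun p => p.Prime ∧ p % G.Q = 1) ⊆
          ((range (Y + 1)).filter fun r => y < r ∧ r.Prime ∧ r % G.Q = 1) ∪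
            range (y + 1) := by
        intro p hp
        rw [mem_filter] at hp
        rw [mem_union, mem_filter, mem_range]
        by_cases h : y < p
        · exact Or.inl ⟨mem_range.mp hp.1, h, hp.2⟩
        · right
          rw [mem_range]
          omega
      refine (Finset.card_le_card h5).trans ((Finset.card_union_le _ _).trans ?_)
      rw [Finset.card_range]
    have h4' : (((range (Y + 1)).filter fun p => p.Prime ∧ p % G.Q = 1).card : ℝ) ≤
        (((range (Y + 1)).filter fun r => y < r ∧ r.Prime ∧ r % G.Q = 1).card : ℝ) +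
          ((y : ℝ) + 1) := by
      exact_mod_cast h4
    have h6 : (y : ℝ) + 1 ≤ c / 2 * (Y / Real.log Y) := by
      have hs0 : 0 < Real.sqrt (Y : ℝ) := Real.sqrt_pos.mpr (by linarith)
      have hs1 : (y : ℝ) ^ 3 ≤ Real.sqrt (Y : ℝ) := by
        apply Real.le_sqrt_of_sq_le
        have : ((y : ℝ) ^ 3) ^ 2 = (y : ℝ) ^ 6 := by ring
        rw [this]
        exact_mod_cast hYy
      have hs2 : Real.sqrt (Y : ℝ) / 2 ≤ Y / Real.log Y := by
        rw [le_div_iff₀ hlY]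
        have h7 := log_le_two_sqrt (show (0 : ℝ) < Y by linarith)
        calc Real.sqrt (Y : ℝ) / 2 * Real.log Y ≤ Real.sqrt (Y : ℝ) / 2 * (2 * Real.sqrt Y) :=
              mul_le_mul_of_nonneg_left h7 (by positivity)
          _ = Real.sqrt (Y : ℝ) * Real.sqrt Y := by ring
          _ = Y := Real.mul_self_sqrt (by linarith)
      have hs3 : 8 ≤ c * (y : ℝ) := by
        rw [div_le_iff₀ hc] at hyc
        linarith
      calc (y : ℝ) + 1 ≤ 8 / 4 * (y * 1) := by linarith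
        _ ≤ c * y / 4 * (y * y) := by
            apply mul_le_mul _ _ (by positivity) (by positivity)
            · exact div_le_div_of_nonneg_right hs3 (by norm_num)
            · apply mul_le_mul_of_nonneg_left _ (by positivity)
              linarith
        _ = c / 2 * ((y : ℝ) ^ 3 / 2) := by ring
        _ ≤ c / 2 * (Real.sqrt Y / 2) := by
            apply mul_le_mul_of_nonneg_left _ (by positivity)
            exact div_le_div_of_nonneg_right hs1 (by norm_num)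
        _ ≤ c / 2 * (Y / Real.log Y) := mul_le_mul_of_nonneg_left hs2 (by positivity)
    have h7 : c / 2 * (Y / Real.log Y) ≤
        (((range (Y + 1)).filter fun r => y < r ∧ r.Prime ∧ r % G.Q = 1).card : ℝ) := by
      have h8 : c * Y / Real.log Y = c / 2 * (Y / Real.log Y) + c / 2 * (Y / Real.log Y) := by ring
      rw [h8] at h3
      linarith
    rw [← hYdef]
    refine le_trans ?_ h7
    have hhalf : (X : ℝ) / (2 * m) ≤ (Y : ℝ) := by
      have h9 : X < m * Y + m := by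
        rw [hYdef]
        have := Nat.div_add_mod X m
        have := Nat.mod_lt X k6
        omega
      have h10 : (X : ℝ) < m * (Y : ℝ) + m := by exact_mod_cast h9
      have hm' : (0 : ℝ) < m := by exact_mod_cast k6
      rw [div_le_iff₀ (by positivity)]
      nlinarith
    have hm' : (0 : ℝ) < m := by exact_mod_cast k6
    have hX10 : (X : ℝ) / (10 * m) ≤ (X : ℝ) / (2 * m) := by
      apply div_le_div_of_nonneg_left (by positivity) (by positivity)
      linarith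
    calc c / 20 * (X / Real.log X) * ((1 : ℝ) / (m : ℝ)) =
        c / 2 * (((X : ℝ) / (10 * m)) / Real.log X) := by
          field_simp
          ring
      _ ≤ c / 2 * ((Y : ℝ) / Real.log X) := by
          apply mul_le_mul_of_nonneg_left _ (by positivity)
          apply div_le_div_of_nonneg_right _ hlogX.le
          exact hX10.trans hhalf
      _ ≤ c / 2 * ((Y : ℝ) / Real.log Y) := by
          apply mul_le_mul_of_nonneg_left _ (by positivity)
          apply div_le_div_of_nonneg_left (by positivity) hlY hlYX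
  rw [← Finset.mul_sum] at hsum
  have hG := G1_lower (cls G F) (1 - dl G) C y (by omega) (hC y (by omega))
  have hdl : 1 - (1 - dl G) = dl G := by ring
  rw [hdl] at hG
  have hcard : ((DD G F X y).card : ℝ) ≤ ((UU G F X).card : ℝ) := by
    exact_mod_cast card_DD_le hok F X y hyF
  refine le_trans ?_ (hsum.trans hcard)
  have h6 : 0 ≤ c / 20 * (X / Real.log X) := by positivity
  refine le_trans ?_ (mul_le_mul_of_nonneg_left hG h6)
  have hdl0 : 0 ≤ dl G := dl_nonneg G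
  have hdl1 : dl G ≤ 1 := dl_le hok
  have h7 : (Real.log X) ^ (dl G) ≤ 16 * (Real.log y) ^ (dl G) := by
    have h8 : (Real.log X) ^ (dl G) ≤ (16 * Real.log y) ^ (dl G) :=
      Real.rpow_le_rpow hlogX.le hlog16 hdl0
    rw [Real.mul_rpow (by norm_num) hlogy.le] at h8
    refine h8.trans ?_
    apply mul_le_mul_of_nonneg_right _ (by positivity)
    calc (16 : ℝ) ^ (dl G) ≤ 16 ^ (1 : ℝ) := Real.rpow_le_rpow_of_exponent_le (by norm_num) hdl1
      _ = 16 := Real.rpow_one _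
  have h10 : (Real.log X) ^ (-1 + dl G : ℝ) = (Real.log X) ^ (dl G) / Real.log X := by
    rw [Real.rpow_add hlogX, Real.rpow_neg_one]
    ring
  rw [h10]
  have hee : 0 < Real.exp (-C) := Real.exp_pos _
  calc c / 20 * (1 / 2 * Real.exp (-C)) / 16 * X * ((Real.log X) ^ (dl G) / Real.log X)
      = c / 20 * (X / Real.log X) * (1 / 2 * Real.exp (-C) / 16 * (Real.log X) ^ (dl G)) := by
        ring
    _ ≤ c / 20 * (X / Real.log X) *
        (1 / 2 * Real.exp (-C) / 16 * (16 * (Real.log y) ^ (dl G))) := by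
        apply mul_le_mul_of_nonneg_left _ h6
        apply mul_le_mul_of_nonneg_left h7 (by positivity)
    _ = c / 20 * (X / Real.log X) * (1 / 2 * Real.exp (-C) * (Real.log y) ^ (dl G)) := by ring

/-- finite sets of primes of the class with given residue of the product -/
theorem exists_tw (G : Cfg) : ∃ T : ℕ → Finset ℕ, (∀ r, ∀ p ∈ T r, Sp G p ∨ In G p) ∧
    ∀ S : Finset ℕ, (∀ p ∈ S, Sp G p ∨ In G p) →
      (∏ p ∈ T ((∏ p ∈ S, p) % G.Q), p) % G.Q = (∏ p ∈ S, p) % G.Q := by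
  have h1 : ∀ r : ℕ, ∃ T : Finset ℕ, (∀ p ∈ T, Sp G p ∨ In G p) ∧
      ∀ S : Finset ℕ, (∀ p ∈ S, Sp G p ∨ In G p) → (∏ p ∈ S, p) % G.Q = r →
        (∏ p ∈ T, p) % G.Q = r := by
    intro r
    by_cases hr : ∃ S : Finset ℕ, (∀ p ∈ S, Sp G p ∨ In G p) ∧ (∏ p ∈ S, p) % G.Q = r
    · obtain ⟨S, hS1, hS2⟩ := hr
      exact ⟨S, hS1, fun _ _ _ => hS2⟩
    · refine ⟨∅, by simp, fun S hS1 hS2 => ?_⟩
      exact absurd ⟨S, hS1, hS2⟩ hr
  choose T hT1 hT2 using h1
  exact ⟨T, hT1, fun S hS => hT2 _ S hS rfl⟩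

theorem cop_prod {G : Cfg} (h : Ok G) {S : Finset ℕ} (hS : ∀ p ∈ S, Sp G p ∨ In G p) :
    Nat.Coprime (∏ p ∈ S, p) G.Q :=
  Nat.Coprime.prod_left fun p hp => cop_of h (hS p hp)

theorem card_UU_le {G : Cfg} (h : Ok G) {T : ℕ → Finset ℕ}
    (hT1 : ∀ r, ∀ p ∈ T r, Sp G p ∨ In G p)
    (hT2 : ∀ S : Finset ℕ, (∀ p ∈ S, Sp G p ∨ In G p) →
      (∏ p ∈ T ((∏ p ∈ S, p) % G.Q), p) % G.Q = (∏ p ∈ S, p) % G.Q) (X : ℕ) :
    (UU G ((range G.Q).biUnion T) (X / ∏ r ∈ range G.Q, ∏ p ∈ T r, p)).card ≤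
      (SS G X).card := by
  have hpos : ∀ r, 0 < ∏ p ∈ T r, p := fun r => Finset.prod_pos fun p hp => (pr_of (hT1 r p hp)).pos
  refine Finset.card_le_card_of_injOn (fun S => S ∪ T ((∏ p ∈ S, p) % G.Q)) ?_ ?_
  · intro S hS
    rw [mem_coe, UU, mem_filter, mem_powerset] at hS
    obtain ⟨-, hS1, hS2⟩ := hS
    have hSc : ∀ p ∈ S, Sp G p ∨ In G p := fun p hp => (hS1 p hp).1
    obtain ⟨ρ, hρ⟩ : ∃ ρ, ρ = (∏ p ∈ S, p) % G.Q := ⟨_, rfl⟩
    have hρQ : ρ ∈ range G.Q := by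
      rw [mem_range, hρ]
      exact Nat.mod_lt _ h.q0
    have hdis : Disjoint S (T ρ) := by
      rw [Finset.disjoint_left]
      intro p hp hp'
      exact (hS1 p hp).2 (mem_biUnion.2 ⟨ρ, hρQ, hp'⟩)
    have hall : ∀ p ∈ S ∪ T ρ, Sp G p ∨ In G p := by
      intro p hp
      rcases mem_union.mp hp with hp | hp
      · exact hSc p hp
      · exact hT1 ρ p hp
    have hpr : ∏ p ∈ S ∪ T ρ, p = (∏ p ∈ S, p) * ∏ p ∈ T ρ, p := Finset.prod_union hdis
    have hle : ∏ p ∈ S ∪ T ρ, p ≤ X := by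
      rw [hpr]
      have h1 : ∏ p ∈ T ρ, p ≤ ∏ r ∈ range G.Q, ∏ p ∈ T r, p :=
        Nat.le_of_dvd (Finset.prod_pos fun r _ => hpos r)
          (Finset.dvd_prod_of_mem (fun r => ∏ p ∈ T r, p) hρQ)
      exact (Nat.mul_le_mul hS2 h1).trans (Nat.div_mul_le_self _ _)
    have hhc : Hc G (∏ p ∈ S ∪ T ρ, p) := by
      rw [hpr, ← hc_mod h, Nat.mul_mod, hρ, hT2 S hSc, ← Nat.mul_mod, hc_mod h]
      exact hc_sq h (cop_prod h hSc)
    simp only [← hρ]
    rw [mem_coe, SS, mem_filter, mem_powerset]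
    refine ⟨?_, ⟨hall, hhc⟩, hle⟩
    intro p hp
    rw [mem_range]
    have h3 : p ∣ ∏ q ∈ S ∪ T ρ, q := Finset.dvd_prod_of_mem _ hp
    have h4 : 0 < ∏ q ∈ S ∪ T ρ, q := Finset.prod_pos fun q hq => (pr_of (hall q hq)).pos
    have := Nat.le_of_dvd h4 h3
    omega
  · intro S hS S' hS' he
    rw [mem_coe, UU, mem_filter, mem_powerset] at hS hS'
    have key : ∀ S : Finset ℕ, (∀ p ∈ S, cls G ((range G.Q).biUnion T) p) →
        (S ∪ T ((∏ p ∈ S, p) % G.Q)).filter (fun p => p ∉ (range G.Q).biUnion T) = S := by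
      intro S hS
      ext p
      rw [mem_filter, mem_union]
      constructor
      · rintro ⟨h1 | h1, h2⟩
        · exact h1
        · exact absurd (mem_biUnion.2 ⟨_, mem_range.2 (Nat.mod_lt _ h.q0), h1⟩) h2
      · intro h1
        exact ⟨Or.inl h1, (hS p h1).2⟩
    simp only at he
    rw [← key S hS.2.1, he, key S' hS'.2.1]

theorem t_LOW : S_LOW := by
  intro hM hche G h
  obtain ⟨T, hT1, hT2⟩ := exists_tw G
  obtain ⟨c, X₀, hc, h0⟩ := low0 hM hche h ((range G.Q).biUnion T)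
  obtain ⟨M, hMd⟩ : ∃ M, M = ∏ r ∈ range G.Q, ∏ p ∈ T r, p := ⟨_, rfl⟩
  have hM0 : 0 < M := by
    rw [hMd]
    exact Finset.prod_pos fun r _ => Finset.prod_pos fun p hp => (pr_of (hT1 r p hp)).pos
  have hMR : (0 : ℝ) < M := by exact_mod_cast hM0
  refine ⟨c / (2 * M), M * (X₀ + 3), by positivity, fun X hX => ?_⟩
  have h1 := card_UU_le h hT1 hT2 X
  rw [← hMd] at h1
  obtain ⟨Y, hY⟩ : ∃ Y, Y = X / M := ⟨_, rfl⟩
  rw [← hY] at h1
  have hY1 : X₀ + 3 ≤ Y := by
    rw [hY, Nat.le_div_iff_mul_le hM0, mul_comm]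
    exact hX
  have h2 := h0 Y (by omega)
  have h3 : ((UU G ((range G.Q).biUnion T) Y).card : ℝ) ≤ ((SS G X).card : ℝ) := by
    exact_mod_cast h1
  refine le_trans ?_ (h2.trans h3)
  have hYX : Y ≤ X := by rw [hY]; exact Nat.div_le_self _ _
  have hYR : (3 : ℝ) ≤ Y := by exact_mod_cast (show 3 ≤ Y by omega)
  have hlY : 0 < Real.log Y := Real.log_pos (by linarith)
  have hXY : (X : ℝ) / (2 * M) ≤ (Y : ℝ) := by
    have h9 : X < M * Y + M := by
      rw [hY]
      have := Nat.div_add_mod X M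
      have := Nat.mod_lt X hM0
      omega
    have h10 : (X : ℝ) < M * (Y : ℝ) + M := by exact_mod_cast h9
    rw [div_le_iff₀ (by positivity)]
    nlinarith
  have hlog : (Real.log X) ^ (-1 + dl G : ℝ) ≤ (Real.log Y) ^ (-1 + dl G : ℝ) := by
    refine Real.rpow_le_rpow_of_nonpos hlY ?_ ?_
    · exact Real.log_le_log (by linarith) (by exact_mod_cast hYX)
    · have := dl_le h
      linarith
  have hlX0 : 0 ≤ (Real.log X) ^ (-1 + dl G : ℝ) :=
    Real.rpow_nonneg (Real.log_natCast_nonneg X) _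
  calc c / (2 * M) * X * (Real.log X) ^ (-1 + dl G : ℝ)
      = c * (X / (2 * M)) * (Real.log X) ^ (-1 + dl G : ℝ) := by ring
    _ ≤ c * Y * (Real.log Y) ^ (-1 + dl G : ℝ) := by
        refine mul_le_mul (mul_le_mul_of_nonneg_left hXY hc.le) hlog hlX0 (by positivity)

end Pool.Agent.U2.GD
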